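import Mathlib
import Pool.Agent.TH841.AL.Fin

/-!
# A partial algorithm for curves of genus one

We construct a partial computable function `φ` on the set of the polynomials `f(x, y)` with integer
coefficients (lists of coefficient lists), such that, whenever `φ(f)` is defined, the value answers
correctly the question whether `f(x, y) = 0` has infinitely many rational solutions (in fact `φ` is
only defined for some of the polynomials without rational zeros), and `φ` is defined for most of the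
curves of genus one `C : y² = b x⁴ - (A + B) x² + A B / b` (`b` a squarefree divisor of `A B`), with
points everywhere locally, attached to the members of a one-parameter family
`y² = x (x - A) (x - B)`, `A = D(t) u₀(t)`, `B = D(t) u₁(t)`. (The algorithm looks for a modulus `m`
such that for all squarefree `d ∣ 2 A B (A - B)` the covering `b M² - A e² = d X²`,
`b M² - B e² = b d Y²` of `C` has no real point or no primitive solution modulo `m`.)
-/

set_option autoImplicit false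

namespace Pool.Agent.Results.MP_d6ddbd_nt.QuarticsByFiniteChecks

open Finset Polynomial

/-- the set `Z_f(ℚ)` of the rational zeros of `f = ∑ L_(i,j) x^i y^j` -/
def Zeros (L : List (List ℤ)) : Set (ℚ × ℚ) := {p : ℚ × ℚ |
  ∑ i ∈ Finset.range L.length, ∑ j ∈ Finset.range (L.getD i []).length,
    (((L.getD i []).getD j 0 : ℤ) : ℚ) * p.1 ^ i * p.2 ^ j = 0}

/-- the polynomial `y² - (b x⁴ - (A + B) x² + A B / b)` -/
def quartic (A B b : ℤ) : List (List ℤ) := [[-(A * B / b), 0, 1], [], [A + B], [], [-b]]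

/-- the curve `C : N² = b M⁴ - (A + B) M² e² + (A B / b) e⁴` has a point over `K`, with
`(M, e) ≠ (0, 0)` -/
def Solvable (K : Type) [Field K] (A B b : ℤ) : Prop := ∃ N M e : K, (M ≠ 0 ∨ e ≠ 0) ∧
  N ^ 2 = (b : K) * M ^ 4 + ((-(A + B) : ℤ) : K) * M ^ 2 * e ^ 2 +
    ((A * B / b : ℤ) : K) * e ^ 4

/-- the squarefree `b ∣ A B` for which `C` has points everywhere locally -/
def ELS (A B : ℤ) : Set ℤ := {b | Squarefree b ∧ b ∣ A * B ∧ Solvable ℝ A B b ∧
  ∀ (p : ℕ) [Fact p.Prime], Solvable ℚ_[p] A B b}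

/-- the `b` in `ELS A B` for which the algorithm `φ` does not halt on the input
`y² - (b x⁴ - (A + B) x² + A B / b)` -/
def Undecided (φ : List (List ℤ) →. Bool) (A B : ℤ) : Set ℤ :=
  {b | b ∈ ELS A B ∧ ¬ (φ (quartic A B b)).Dom}

/-- `u_k = a_k ∏ f_{k,i}` -/
noncomputable def u {n : Fin 3 → ℕ} (a : Fin 3 → ℤ) (f : ∀ k : Fin 3, Fin (n k) → ℤ[X])
    (k : Fin 3) : ℤ[X] := C (a k) * ∏ i, f k i

/-- `D = c ∏ g_i` -/
noncomputable def D {m : ℕ} (c : ℤ) (g : Fin m → ℤ[X]) : ℤ[X] := C c * ∏ i, g i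

/-- `v` is a square modulo `f` in `ℚ[t]` -/
def SqMod (f v : ℤ[X]) : Prop := ∃ q : ℚ[X], f.map (Int.castRingHom ℚ) ∣
  (q ^ 2 - v.map (Int.castRingHom ℚ))

/-- `- D u₁`, `- D u₀`, `D u₀` -/
noncomputable def v {n : Fin 3 → ℕ} {m : ℕ} (a : Fin 3 → ℤ) (f : ∀ k : Fin 3, Fin (n k) → ℤ[X])
    (c : ℤ) (g : Fin m → ℤ[X]) : Fin 3 → ℤ[X] :=
  ![-(D c g * u a f 1), -(D c g * u a f 0), D c g * u a f 0]

open Classical in
/-- the constant `κ = n₀ + n₁ - (n₂ + s) / 2 + r / 2`, where `s` is the number of the factors of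
`u₂` modulo which `D u₀` is a square, and `r` the number of the `g_i` modulo which `u₀ u₁` is not
a square -/
noncomputable def κ {n : Fin 3 → ℕ} {m : ℕ} (a : Fin 3 → ℤ) (f : ∀ k : Fin 3, Fin (n k) → ℤ[X])
    (c : ℤ) (g : Fin m → ℤ[X]) : ℝ :=
  (n 0 : ℝ) + n 1 -
    ((n 2 : ℝ) + (univ.filter (fun i => SqMod (f 2 i) (D c g * u a f 0))).card) / 2 +
    ((univ.filter (fun i => ¬ SqMod (g i) (u a f 0 * u a f 1))).card : ℝ) / 2

open Classical in
/-- the balance condition: `2 n_k + s_k ≤ n₀ + n₁ + n₂` for all `k`, where `s_k` is the number of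
the factors `f_{k,i}` modulo which `v_k` is a square -/
def Balanced {n : Fin 3 → ℕ} {m : ℕ} (a : Fin 3 → ℤ) (f : ∀ k : Fin 3, Fin (n k) → ℤ[X])
    (c : ℤ) (g : Fin m → ℤ[X]) : Prop :=
  ∀ k, 2 * n k + (univ.filter (fun i => SqMod (f k i) (v a f c g k))).card ≤ n 0 + n 1 + n 2

open Classical in
/-- **Theorem.** There is a partial computable function `φ` from the lists of lists of integers
(polynomials `f(x, y)`) to `{true, false}` such that
(1) if `φ(f)` is defined, then it is `true` if and only if `f` has infinitely many rational zeros;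
in fact `f` has no rational zeros then;
(2) let `A`, `B`, `A - B` be nonzero and let `b` be a squarefree divisor of `A B`: if the curve
`C : y² = b x⁴ - (A + B) x² + A B / b` does not have points everywhere locally, then `φ` is defined
at `C`;
(3) let `u_k = a_k ∏_{i < n_k} f_{k,i}`, `k = 0, 1, 2`, with `u₀ - u₁ = u₂`, and
`D = c ∏_{i < m} g_i`, where `a_k`, `c` are nonzero and the `n₀ + n₁ + n₂ + m` polynomials
`f_{k,i}`, `g_i` with integer coefficients are irreducible of positive degree and pairwise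
non-associated; assume the balance condition. For all `δ, ε > 0` and `L` there is `M₀` such that for
`M ≥ M₀` and `|N| ≤ M ^ L`: the sum of `#Undecided φ A B`, `A = (D u₀)(t)`, `B = (D u₁)(t)`, over
the integers `N < t ≤ N + M` with `A`, `B`, `A - B` nonzero is at most
`(log M) ^ (δ - κ log 2)` times the sum of `#ELS A B` over the same `t`; and for all
`N < t ≤ N + M` with at most `ε M` exceptions the numbers `A`, `B`, `A - B` are nonzero and
`#Undecided φ A B ≤ (log M) ^ (δ - κ log 2) * #ELS A B`. -/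
theorem result :
    ∃ φ : List (List ℤ) →. Bool, Partrec φ ∧
    (∀ L, ∀ r ∈ φ L, (r = true ↔ (Zeros L).Infinite)) ∧ (∀ L, (φ L).Dom → Zeros L = ∅) ∧
    (∀ A B b : ℤ, A ≠ 0 → B ≠ 0 → A ≠ B → Squarefree b → b ∣ A * B → b ∉ ELS A B →
      (φ (quartic A B b)).Dom) ∧
    ∀ (n : Fin 3 → ℕ) (m : ℕ) (a : Fin 3 → ℤ) (f : ∀ k : Fin 3, Fin (n k) → ℤ[X])
    (c : ℤ) (g : Fin m → ℤ[X]) (_ : ∀ k, a k ≠ 0) (_ : c ≠ 0)
    (_ : ∀ k i, Irreducible (f k i) ∧ 0 < (f k i).natDegree)
    (_ : ∀ i, Irreducible (g i) ∧ 0 < (g i).natDegree)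
    (_ : ∀ k i l j, (⟨k, i⟩ : Σ k : Fin 3, Fin (n k)) ≠ ⟨l, j⟩ → ¬ Associated (f k i) (f l j))
    (_ : ∀ i j, i ≠ j → ¬ Associated (g i) (g j)) (_ : ∀ k i j, ¬ Associated (f k i) (g j))
    (_ : u a f 0 - u a f 1 = u a f 2) (_ : Balanced a f c g)
    (δ ε : ℝ) (L : ℕ) (_ : 0 < δ) (_ : 0 < ε),
    ∃ M₀ : ℕ, ∀ (N : ℤ) (M : ℕ), M₀ ≤ M → |N| ≤ (M : ℤ) ^ L →
      ∑ t ∈ (Ioc N (N + (M : ℤ))).filter (fun t => ∀ k, (D c g * u a f k).eval t ≠ 0),
        ((Undecided φ ((D c g * u a f 0).eval t) ((D c g * u a f 1).eval t)).ncard : ℝ) ≤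
      (Real.log M) ^ (δ - κ a f c g * Real.log 2) *
        ∑ t ∈ (Ioc N (N + (M : ℤ))).filter (fun t => ∀ k, (D c g * u a f k).eval t ≠ 0),
          ((ELS ((D c g * u a f 0).eval t) ((D c g * u a f 1).eval t)).ncard : ℝ) ∧
      (((Ioc N (N + (M : ℤ))).filter (fun t => ¬ ∀ A B : ℤ,
        A = (D c g * u a f 0).eval t → B = (D c g * u a f 1).eval t →
        A ≠ 0 ∧ B ≠ 0 ∧ A ≠ B ∧ ((Undecided φ A B).ncard : ℝ) ≤
          (Real.log M) ^ (δ - κ a f c g * Real.log 2) * ((ELS A B).ncard : ℝ))).card : ℝ) ≤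
        ε * M := by
  have hre := Pool.Agent.TH841.AL.re_P
  refine ⟨fun L => (Part.assert (Pool.Agent.TH841.AL.P L) fun _ => Part.some ()).map
    (fun _ => false), Partrec.map hre (Computable.const false).to₂, ?_, ?_, ?_, ?_⟩
  · intro L r hr
    obtain ⟨u, hu, rfl⟩ := (Part.mem_map_iff _).1 hr
    have hP : Pool.Agent.TH841.AL.P L := (Part.mem_assert_iff.1 hu).1
    have h1 : Zeros L = ∅ := Pool.Agent.TH841.AL.P_sound L hP
    constructor
    · intro h
      exact Bool.noConfusion h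
    · intro h
      rw [h1] at h
      exact absurd Set.finite_empty h
  · rintro L ⟨hP, -⟩
    exact Pool.Agent.TH841.AL.P_sound L hP
  · intro A B b hA hB hAB hb hd hE
    exact ⟨Pool.Agent.TH841.AL.P_complete hA hB hAB hb hd (fun h => hE h.1), trivial⟩
  intro n m a f c g ha hc hf hg hff hgg hfg hu hb δ ε L hδ hε
  have hirr : Pool.Agent.TH841.PT.Irr (Pool.Agent.TH841.TR.allf g f) := by
    refine ⟨?_, ?_, ?_⟩
    · rintro (x | i)
      · exact (hf x.1 x.2).1
      · exact (hg i).1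
    · rintro (x | i)
      · exact (hf x.1 x.2).2
      · exact (hg i).2
    · rintro (x | i) (y | j) hxy
      · exact hff x.1 x.2 y.1 y.2 (fun h => hxy (congrArg Sum.inl h))
      · exact hfg x.1 x.2 j
      · exact fun h => hfg y.1 y.2 i h.symm
      · exact hgg i j (fun h => hxy (congrArg Sum.inr h))
  have hbal : Pool.Agent.TH841.TR.Bal (Pool.Agent.TH841.LS.DG c g) a f :=
    Pool.Agent.TH841.TR.bal_of (v := v a f c g) rfl rfl rfl fun k => hb k
  obtain ⟨M1, h1⟩ := Pool.Agent.TH841.FD.pencil Pool.Agent.TH841.FD.COVLf.covl a f c g ha hc hirr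
    hu hbal δ L hδ
  obtain ⟨M2, h2⟩ := Pool.Agent.TH841.FD.pencil_ae Pool.Agent.TH841.FD.COVLf.covl a f c g ha hc
    hirr hu hbal δ ε L hδ hε
  have key : ∀ A B : ℤ, A ≠ 0 → B ≠ 0 → A ≠ B → ((Undecided (fun L =>
      (Part.assert (Pool.Agent.TH841.AL.P L) fun _ => Part.some ()).map (fun _ => false)) A B).ncard
      : ℝ) ≤ ((Pool.Agent.TH841.FD.LF A B).ncard : ℝ) := by
    intro A B hA hB hAB
    refine Nat.cast_le.2 (le_trans (Set.ncard_le_ncard ?_ ?_)
      (Pool.Agent.TH841.AL.undecided_le hA hB hAB))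
    · rintro b ⟨h1, h2⟩
      exact ⟨h1, fun h3 => h2 ⟨h3, trivial⟩⟩
    · exact (Pool.Agent.TH841.NO.sq_finite (mul_ne_zero hA hB)).subset fun b h => h.1
  refine ⟨M1 + M2, fun N M hM hN => ⟨?_, ?_⟩⟩
  · refine le_trans (sum_le_sum fun t ht => ?_) (h1 N M (by omega) hN)
    have h4 := (mem_filter.1 ht).2
    have h5 : (D c g * u a f 0).eval t ≠ (D c g * u a f 1).eval t := by
      intro h
      apply h4 2
      rw [← hu, mul_sub, eval_sub, h, sub_self]
    exact key _ _ (h4 0) (h4 1) h5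
  · refine le_trans (Nat.cast_le.2 (card_le_card fun t ht => ?_)) (h2 N M (by omega) hN)
    obtain ⟨ht1, ht2⟩ := mem_filter.1 ht
    refine mem_filter.2 ⟨ht1, fun h => ht2 fun A B hA hB => ?_⟩
    obtain ⟨k1, k2, k3, k4⟩ := h A B hA hB
    exact ⟨k1, k2, k3, (key A B k1 k2 k3).trans k4⟩

end Pool.Agent.Results.MP_d6ddbd_nt.QuarticsByFiniteChecks
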