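import Pool.Agent.TH352.RC.RC8

/-! Deciding which members of an explicit family of plane quartics have infinitely many rational
points is equivalent to computing the ranks of all elliptic curves `y² = x (x + a) (x + b)`. -/

set_option autoImplicit false

namespace Pool.Agent.Results.MP_d6ddbd_nt.RanksComputable

/-- `f = 0` has infinitely many rational solutions, `f` given as a list of coefficient lists. -/
def InfZ (L : List (List ℤ)) : Prop :=
  Set.Infinite {p : ℚ × ℚ | ∑ i ∈ Finset.range L.length,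
    ∑ j ∈ Finset.range (L.getD i []).length,
      (((L.getD i []).getD j 0 : ℤ) : ℚ) * p.1 ^ i * p.2 ^ j = 0}

/-- The coefficient lists of
`(de y² - d (dx² + a) - (dx² + b))² - 4 d (dx² + a) (dx² + b)`. -/
def quartic (a b d e : ℤ) : List (List ℤ) :=
  [[(d * a - b) * (d * a - b), 0, -(2 * (d * e) * (d * a + b)), 0, (d * e) * (d * e)], [],
    [2 * (d * d - d) * (d * a - b), 0, -(2 * (d * e) * (d * d + d))], [],
    [(d * d - d) * (d * d - d)]]

/-- `a, b` nonzero and distinct, `d, e` squarefree, and infinitely many rational points on the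
quartic. -/
def FamInf (z : (ℤ × ℤ) × (ℤ × ℤ)) : Prop :=
  (z.1.1 ≠ 0 ∧ z.1.2 ≠ 0 ∧ z.1.1 ≠ z.1.2) ∧ (Squarefree z.2.1 ∧ Squarefree z.2.2) ∧
    InfZ (quartic z.1.1 z.1.2 z.2.1 z.2.2)

/-- The rank of the group of rational points of `y² = x (x + a) (x + b)`; `0` if the curve is
singular. -/
noncomputable def rk (q : ℤ × ℤ) : ℕ :=
  if q.1 ≠ 0 ∧ q.2 ≠ 0 ∧ q.1 ≠ q.2 then
    Module.finrank ℤ ((⟨0, (q.1 : ℚ) + q.2, 0, (q.1 : ℚ) * q.2, 0⟩ :
      WeierstrassCurve ℚ).toAffine.Point) else 0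

theorem result :
    (∀ (a b d e : ℤ) (x y : ℚ), (∑ i ∈ Finset.range (quartic a b d e).length,
      ∑ j ∈ Finset.range ((quartic a b d e).getD i []).length,
        ((((quartic a b d e).getD i []).getD j 0 : ℤ) : ℚ) * x ^ i * y ^ j) =
        ((d * e : ℚ) * y ^ 2 - (d * (d * x ^ 2 + a) + (d * x ^ 2 + b))) ^ 2
          - 4 * d * (d * x ^ 2 + a) * (d * x ^ 2 + b)) ∧
    (ComputablePred FamInf ↔ Computable rk) ∧
    (ComputablePred InfZ → Computable rk) ∧
    (∀ a b : ℤ, a ≠ 0 → b ≠ 0 → a ≠ b →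
      {c : ℤ × ℤ | FamInf ((a, b), c)}.Finite ∧
      {c : ℤ × ℤ | FamInf ((a, b), c)}.ncard =
        if rk (a, b) = 0 then 0 else 2 ^ (rk (a, b) + 2)) := by
  refine ⟨fun a b d e x y => Pool.Agent.TH352.RC.eval_clist a b d e x y,
    ⟨Pool.Agent.TH352.RC.fwd, Pool.Agent.TH352.RC.rev⟩,
    fun h => Pool.Agent.TH352.RC.fwd (Pool.Agent.TH352.RC.fam_of h), ?_⟩
  intro a b ha hb hab
  exact Pool.Agent.TH352.RC.count ha hb hab

end Pool.Agent.Results.MP_d6ddbd_nt.RanksComputable
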